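import Pool.Agent.Helper46.C2.St

/-!
PROJECT C2 (MP_b3ce06_al), module EV: the evaluation homomorphism.
-/

set_option autoImplicit false

namespace Pool.Agent.Helper26.C2

open Pool.Agent.Helper46.C2 Pool.Agent.Helper43.GD Polynomial

private def triv (L : Type) [CommRing L] [Subsingleton L] (p : ℕ) : (ZMod p)[X] →+* L where
  toFun _ := 0
  map_one' := Subsingleton.elim _ _
  map_mul' _ _ := Subsingleton.elim _ _
  map_zero' := rfl
  map_add' _ _ := Subsingleton.elim _ _

theorem hEV : StEV := by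
  intro k L _ x hF
  obtain ⟨ev, hev⟩ : ∃ ev : (ZMod 2)[X] →+* L, ev X = (x : L) := by
    rcases subsingleton_or_nontrivial L with hs | hn
    · exact ⟨triv L 2, Subsingleton.elim _ _⟩
    · obtain ⟨q, hq⟩ := CharP.exists L
      have h1 : q ∣ 2 := (CharP.cast_eq_zero_iff L q 2).1 (by exact_mod_cast hF.two)
      have h2 : q ≠ 1 := by
        rintro rfl
        exact not_subsingleton L CharP.CharOne.subsingleton
      have h3 : q = 2 := ((Nat.dvd_prime Nat.prime_two).1 h1).resolve_left h2
      rw [h3] at hq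
      refine ⟨eval₂RingHom (ZMod.castHom (dvd_refl 2) L) (x : L), ?_⟩
      rw [coe_eval₂RingHom, eval₂_X]
  refine ⟨ev, hev, fun y => ?_⟩
  have h := hF.gn ev.range.toAddSubgroup ⟨1, map_one ev⟩ (by
    rintro z ⟨g, rfl⟩
    exact ⟨X * g, by rw [map_mul, hev]⟩) y
  exact h

end Pool.Agent.Helper26.C2
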